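import Pool.Agent.XLR.AND
import Pool.Agent.XLR.BIG
import Pool.Agent.XLR.COPY
import Pool.Agent.XLR.DEC
import Pool.Agent.XLR.EXT
import Pool.Agent.XLR.FIN
import Pool.Agent.XLR.FOUR
import Pool.Agent.XLR.MAIN
import Pool.Agent.XLR.MINI
import Pool.Agent.XLR.NEWT
import Pool.Agent.XLR.NOMA
import Pool.Agent.XLR.NOMC
import Pool.Agent.XLR.NOMR
import Pool.Agent.XLR.ODD
import Pool.Agent.XLR.PAIRS
import Pool.Agent.XLR.PROT
import Pool.Agent.XLR.PUSHA
import Pool.Agent.XLR.PUSHB
import Pool.Agent.XLR.PUSHC
import Pool.Agent.XLR.RANK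
import Pool.Agent.XLR.SONE
import Pool.Agent.XLR.STWO
import Pool.Agent.XLR.SUBM
import Pool.Agent.XLR.SUNF
import Pool.Agent.XLR.SYM
import Pool.Agent.XLR.TRANS

set_option autoImplicit false

/-!
# MP_9f5962_lc: the log-rank conjecture for the XOR functions of invariant properties of bounded
arity

`X` is any finite set with an action of the symmetric group of `Fin n`, with at most `q` orbits,
each point of `X` being fixed by the pointwise stabiliser of a set of at most `k` elements (for
instance the edges of the complete graph or the `k`-element subsets of `Fin n`, with `q = 1`).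
Every Boolean function on `F_2^X` that is invariant under the symmetric group satisfies the
log-rank conjecture for XOR functions, with exponent `k (k + 1)`.
-/

open scoped Classical

namespace Pool.Agent.Results.MP_9f5962_lc.BoundedArity

open Pool.Agent.XLR

/-- The log-rank conjecture for the XOR functions of all properties of bounded arity that are
invariant under the symmetric group (first part), and the lower bound for the rank of every such
function that is not a function of the parities on the orbits (second part). -/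
theorem result (k q : ℕ) : ∃ C : ℝ, ∀ (n : ℕ) (X : Type) [Fintype X]
    [MulAction (Equiv.Perm (Fin n)) X],
    Nat.card (MulAction.orbitRel.Quotient (Equiv.Perm (Fin n)) X) ≤ q →
    (∀ x : X, ∃ T : Finset (Fin n), T.card ≤ k ∧
      ∀ σ : Equiv.Perm (Fin n), (∀ v ∈ T, σ v = v) → σ • x = x) →
    ∀ f : (X → ZMod 2) → Bool,
    (∀ (σ : Equiv.Perm (Fin n)) (A : X → ZMod 2), f (fun x => A (σ • x)) = f A) →
    (∃ d : ℕ,
      (d : ℝ) ≤ C * (Real.logb 2
          ((Matrix.of (fun x y : X → ZMod 2 =>
              if f (x + y) then (1 : ℝ) else 0)).rank : ℝ)) ^ (k * (k + 1)) + C ∧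
      ∃ owner : List Bool → Bool,
      ∃ A : List Bool → (X → ZMod 2) → Bool,
      ∃ B : List Bool → (X → ZMod 2) → Bool,
      ∃ out : List Bool → Bool,
        ∀ x y : X → ZMod 2, ∀ t : List Bool, t.length = d →
          (∀ i : ℕ, i < d →
            t[i]? = some (if owner (t.take i) then A (t.take i) x else B (t.take i) y)) →
          out t = f (x + y)) ∧
    ((∃ A B : X → ZMod 2,
        (∀ x : X,
          ∑ y : X, (if y ∈ MulAction.orbit (Equiv.Perm (Fin n)) x then A y else 0) =
          ∑ y : X, (if y ∈ MulAction.orbit (Equiv.Perm (Fin n)) x then B y else 0)) ∧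
        f A ≠ f B) →
      (n : ℝ) ≤ C * (Real.logb 2
          ((Matrix.of (fun x y : X → ZMod 2 =>
              if f (x + y) then (1 : ℝ) else 0)).rank : ℝ) + 1) ^ (k + 1)) := by
  have hAND := p_AND p_FOUR
  have hPAIRS := p_PAIRS p_EXT p_SUNF
  have hDEC := p_DEC p_EXT
  have hODD := p_ODD hDEC p_TRANS
  have hSYM := p_SYM p_FOUR p_NEWT
  have hBIG := p_BIG hAND hPAIRS p_TRANS
  have hSONE := p_SONE hSYM hODD p_EXT p_COPY p_PUSHA p_PUSHB p_PUSHC
  have hSTWO := p_STWO hAND hODD p_EXT p_COPY p_PUSHA p_PUSHB p_PUSHC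
  have hMAIN := p_MAIN hBIG hSONE hSTWO p_MINI
  have hNOMR := p_NOMR hMAIN p_RANK p_NOMA p_SUBM
  obtain ⟨C, hC⟩ := p_FIN hNOMR p_NOMC p_PROT k q
  refine ⟨C, ?_⟩
  intro n X _ _ hq hk f hf
  exact hC n X f ⟨hq, hk⟩ hf

end Pool.Agent.Results.MP_9f5962_lc.BoundedArity
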