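import Pool.Agent.LRC.PLAN
import Pool.Agent.LRC.RES
import Pool.Agent.LRC.FOLD
import Pool.Agent.LRC.FUN
import Pool.Agent.LRC.QRY
import Pool.Agent.LRC.PDT
import Pool.Agent.LRC.RNK
import Pool.Agent.LRC.NCO
import Pool.Agent.LDQ.LAM
import Pool.Agent.LDQ.DGM
import Pool.Agent.LDQ.RMD
import Pool.Agent.LDQ.WAR
import Pool.Agent.LDQ.SYS
import Pool.Agent.LDQ.CIN
import Pool.Agent.LDQ.DZC
import Pool.Agent.LDQ.CAVE
import Pool.Agent.LDQ.CAVA
import Pool.Agent.LDQ.CAVB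
import Pool.Agent.LDQ.CAVH
import Pool.Agent.LDQ.CUBE
import Pool.Agent.LDQ.FOUR
import Pool.Agent.LDQ.HYP
import Pool.Agent.LDQ.KILD
import Pool.Agent.LDQ.MVPD
import Pool.Agent.LDQ.COSD
import Pool.Agent.LDQ.AMPD
import Pool.Agent.LDQ.RAW
import Pool.Agent.LDQ.NCL
import Pool.Agent.LDQ.TAU
import Pool.Agent.LDQ.TAUP
import Pool.Agent.LDQ.CERD
import Pool.Agent.LDQ.REDD
import Pool.Agent.LDQ.POLY
import Pool.Agent.LDQ.FRAN
import Pool.Agent.LDQ.FCER
import Pool.Agent.LDQ.FSIN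
import Pool.Agent.LDQ.FRED

set_option autoImplicit false

/-!
# MP_9f5962_lc: the log-rank conjecture for XOR functions and queries of degree `d`

`xrk f` is the real rank of the communication matrix of `f (x + y)`, `Lr f` its binary logarithm,
`Prot f D` a deterministic protocol of cost `D` (the encoding of the frozen statement), `MvZ P x`
says that `x` is a common zero of the polynomials `P i`, and `Rqd d f t` that the postselected
randomised degree `d` query complexity of `f` is at most `t`.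
-/

open scoped Classical

namespace Pool.Agent.Results.MP_9f5962_lc.DegreeQueries

open Pool.Agent.LRC (Prot xrk MvZ)
open Pool.Agent.LDQ

theorem result :
    -- (1) postselected randomised degree `d` query complexity at most `t`
    (∀ (n : ℕ) (f : (Fin n → ZMod 2) → Bool) (t d : ℕ), 1 ≤ d → Rqd d f t →
      ∃ D : ℕ, (D : ℝ) ≤ 5 * t * (4 * Lr f) ^ (d + 1) ∧ Prot f D) ∧
    -- (2) certificates of size `t` and degree `d` for the inputs of value `b`
    (∀ (n : ℕ) (f : (Fin n → ZMod 2) → Bool) (t d : ℕ) (b : Bool), 1 ≤ d →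
      (∀ x, f x = b → ∃ P : Fin t → MvPolynomial (Fin n) (ZMod 2),
        (∀ i, (P i).totalDegree ≤ d) ∧ MvZ P x ∧ ∀ y, MvZ P y → f y = b) →
      ∃ D : ℕ, (D : ℝ) ≤ 4 * t * (4 * Lr f) ^ d ∧ Prot f D) ∧
    -- (3) a single function, almost constant on a nonempty common zero set of `t` polynomials of
    -- degree at most `d`, is constant on an affine subspace of codimension less than `R`
    (∀ (n : ℕ) (f : (Fin n → ZMod 2) → Bool) (t d k R : ℕ) (b : Bool)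
        (P : Fin t → MvPolynomial (Fin n) (ZMod 2)), (∀ i, (P i).totalDegree ≤ d) →
      (∃ x, MvZ P x) →
      2 ^ (k + 1) * Set.ncard {x | MvZ P x ∧ f x ≠ b} ≤ Set.ncard {x | MvZ P x} →
      (xrk f).choose R *
        2 ^ (t * (∑ i ∈ Finset.range d, (d - i) * k.choose (i + 1)) + 1) < 2 ^ (k * R) →
      ∃ (x₀ : Fin n → ZMod 2) (W : Submodule (ZMod 2) (Fin n → ZMod 2)),
        n < R + Module.finrank (ZMod 2) W ∧ ∀ w ∈ W, f (x₀ + w) = b) ∧
    -- (4) the reduction to kill numbers for one fixed degree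
    (∀ d : ℕ, (∃ (C : ℝ) (k : ℕ), ∀ (n : ℕ) (f : (Fin n → ZMod 2) → Bool), ∃ t : ℕ,
        (t : ℝ) ≤ C * (Lr f) ^ k + C ∧
        ∃ P : Fin t → MvPolynomial (Fin n) (ZMod 2), (∀ i, (P i).totalDegree ≤ d) ∧
          ∃ x, MvZ P x ∧ ∀ y, MvZ P y → f y = f x) →
      ∃ (C : ℝ) (k : ℕ), ∀ (n : ℕ) (f : (Fin n → ZMod 2) → Bool), ∃ D : ℕ,
        (D : ℝ) ≤ C * (Lr f) ^ k + C ∧ Prot f D) := by
  have hPDT := Pool.Agent.LRC.p_PDT (Pool.Agent.LRC.p_FOLD Pool.Agent.LRC.p_PLAN)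
    Pool.Agent.LRC.p_FUN Pool.Agent.LRC.p_QRY Pool.Agent.LRC.p_PLAN
  have hRNK := Pool.Agent.LRC.p_RNK
  have hNCO := Pool.Agent.LRC.p_NCO
  have hRES := Pool.Agent.LRC.p_RES
  have hNCL := p_NCL hRNK hNCO
  have hWAR := p_WAR p_DGM p_RMD
  have hCUBE := p_CUBE (p_CAVE p_CIN p_DZC) p_CAVA (p_CAVB p_DZC) (p_CAVH hWAR p_SYS)
  have hKILD := p_KILD hCUBE p_FOUR p_HYP p_LAM
  have hCOSD := p_COSD hKILD p_MVPD hRES
  have hRAW := p_RAW hCOSD hPDT hRNK hNCO
  have hPOLY := p_POLY hRAW p_TAUP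
  exact ⟨p_FRAN p_AMPD hPOLY hNCL, p_FCER p_CERD hPOLY hNCL, p_FSIN hKILD p_MVPD p_TAU hRNK,
    p_FRED p_REDD hPOLY hNCL⟩

end Pool.Agent.Results.MP_9f5962_lc.DegreeQueries
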