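import Pool.Agent.LRC.PLAN
import Pool.Agent.LRC.RES
import Pool.Agent.LRC.FOLD
import Pool.Agent.LRC.FUN
import Pool.Agent.LRC.QRY
import Pool.Agent.LRC.PDT
import Pool.Agent.LRC.RNK
import Pool.Agent.LRC.NCO
import Pool.Agent.LDQ.LAM
import Pool.Agent.LDQ.DGM
import Pool.Agent.LDQ.RMD
import Pool.Agent.LDQ.WAR
import Pool.Agent.LDQ.SYS
import Pool.Agent.LDQ.CIN
import Pool.Agent.LDQ.DZC
import Pool.Agent.LDQ.CAVE
import Pool.Agent.LDQ.CAVA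
import Pool.Agent.LDQ.CAVB
import Pool.Agent.LDQ.CAVH
import Pool.Agent.LDQ.CUBE
import Pool.Agent.LDQ.FOUR
import Pool.Agent.LDQ.HYP
import Pool.Agent.LDQ.KILD
import Pool.Agent.LDQ.MVPD
import Pool.Agent.LDQ.COSD
import Pool.Agent.LDQ.AMPD
import Pool.Agent.LDQ.RAW
import Pool.Agent.LDQ.NCL
import Pool.Agent.LDQ.TAU
import Pool.Agent.LDQ.TAUX
import Pool.Agent.LDQ.CHO
import Pool.Agent.LDQ.EXPL
import Pool.Agent.LDQ.PARA
import Pool.Agent.LDQ.PARB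
import Pool.Agent.LDQ.ABSO
import Pool.Agent.LDQ.SQRT
import Pool.Agent.LDQ.SMAL
import Pool.Agent.LDQ.DEGF

set_option autoImplicit false

/-!
# MP_9f5962_lc: XOR functions whose `F_2`-degree is a small multiple of the logarithm of the rank

`xrk f` is the real rank of the communication matrix of `f (x + y)`, `Lr f` its binary logarithm,
`Prot f D` a deterministic protocol of cost `D` (the encoding of the frozen statement), and
`Rqd d f t` says that the postselected randomised degree `d` query complexity of `f` is at most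
`t`.
-/

open scoped Classical

namespace Pool.Agent.Results.MP_9f5962_lc.LogDegree

open Pool.Agent.LRC (Prot xrk)
open Pool.Agent.LDQ

theorem result :
    -- (1) degree at most `δ log r` with `δ < 1 / 4`: polynomially below the square root of `r`
    (∀ δ : ℝ, δ < 1 / 4 → ∃ C ε : ℝ, 0 < ε ∧
      (∀ (n : ℕ) (f : (Fin n → ZMod 2) → Bool) (p : MvPolynomial (Fin n) (ZMod 2)),
        (∀ x, f x = true ↔ MvPolynomial.eval x p = 1) → (p.totalDegree : ℝ) ≤ δ * Lr f →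
        ∃ D : ℕ, (D : ℝ) ≤ C * (xrk f : ℝ) ^ (1 / 2 - ε) ∧ Prot f D) ∧
      ∀ (n : ℕ) (f : (Fin n → ZMod 2) → Bool) (t d : ℕ), 1 ≤ t → (d : ℝ) ≤ δ * Lr f →
        Rqd d f t → ∃ D : ℕ, (D : ℝ) ≤ C * t * (xrk f : ℝ) ^ (1 / 2 - ε) ∧ Prot f D) ∧
    -- (2) degree at most a small multiple of `log r`: an arbitrarily small power of `r`
    (∀ ε : ℝ, 0 < ε → ∃ C δ : ℝ, 0 < δ ∧
      (∀ (n : ℕ) (f : (Fin n → ZMod 2) → Bool) (p : MvPolynomial (Fin n) (ZMod 2)),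
        (∀ x, f x = true ↔ MvPolynomial.eval x p = 1) → (p.totalDegree : ℝ) ≤ δ * Lr f →
        ∃ D : ℕ, (D : ℝ) ≤ C * (xrk f : ℝ) ^ ε ∧ Prot f D) ∧
      ∀ (n : ℕ) (f : (Fin n → ZMod 2) → Bool) (t d : ℕ), 1 ≤ t → (d : ℝ) ≤ δ * Lr f →
        Rqd d f t → ∃ D : ℕ, (D : ℝ) ≤ C * t * (xrk f : ℝ) ^ ε ∧ Prot f D) := by
  have hPDT := Pool.Agent.LRC.p_PDT (Pool.Agent.LRC.p_FOLD Pool.Agent.LRC.p_PLAN)
    Pool.Agent.LRC.p_FUN Pool.Agent.LRC.p_QRY Pool.Agent.LRC.p_PLAN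
  have hRNK := Pool.Agent.LRC.p_RNK
  have hNCO := Pool.Agent.LRC.p_NCO
  have hRES := Pool.Agent.LRC.p_RES
  have hNCL := p_NCL hRNK hNCO
  have hWAR := p_WAR p_DGM p_RMD
  have hCUBE := p_CUBE (p_CAVE p_CIN p_DZC) p_CAVA (p_CAVB p_DZC) (p_CAVH hWAR p_SYS)
  have hKILD := p_KILD hCUBE p_FOUR p_HYP p_LAM
  have hCOSD := p_COSD hKILD p_MVPD hRES
  have hRAW := p_RAW hCOSD hPDT hRNK hNCO
  have hEXPL := p_EXPL p_AMPD hRAW (p_TAUX p_TAU) p_CHO hNCL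
  have hSQRT := p_SQRT hEXPL p_PARA p_ABSO hNCL
  have hSMAL := p_SMAL hEXPL p_PARB p_ABSO hNCL
  refine ⟨?_, ?_⟩
  · intro δ hδ
    obtain ⟨C, ε, _, hε, h⟩ := hSQRT δ hδ
    refine ⟨C, ε, hε, ?_, h⟩
    intro n f p hp hd
    obtain ⟨D, hD, hP⟩ := h n f 1 p.totalDegree le_rfl hd (p_DEGF n _ f p le_rfl hp)
    refine ⟨D, ?_, hP⟩
    simpa using hD
  · intro ε hε
    obtain ⟨C, δ, _, hδ, h⟩ := hSMAL ε hε
    refine ⟨C, δ, hδ, ?_, h⟩
    intro n f p hp hd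
    obtain ⟨D, hD, hP⟩ := h n f 1 p.totalDegree le_rfl hd (p_DEGF n _ f p le_rfl hp)
    refine ⟨D, ?_, hP⟩
    simpa using hD

end Pool.Agent.Results.MP_9f5962_lc.LogDegree
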