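import Pool.Agent.XPS.CHR
import Pool.Agent.XPS.BAS
import Pool.Agent.XPS.QUO
import Pool.Agent.XPS.LAG
import Pool.Agent.XPS.BER
import Pool.Agent.XPS.P_CON
import Pool.Agent.XPS.EXT
import Pool.Agent.XPS.SUP
import Pool.Agent.XPS.XTR
import Pool.Agent.XPS.BLP
import Pool.Agent.XPS.LBL
import Pool.Agent.XPS.KHI
import Pool.Agent.XPS.LH
import Pool.Agent.XPS.RICH
import Pool.Agent.XPS.IDN
import Pool.Agent.XPS.MER
import Pool.Agent.XPS.SAM
import Pool.Agent.XPS.BLK
import Pool.Agent.XPS.GRD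
import Pool.Agent.XPS.CB1
import Pool.Agent.XPS.CB2
import Pool.Agent.XPS.DYA
import Pool.Agent.XPS.RGA
import Pool.Agent.XPS.ENG
import Pool.Agent.XPS.GMB
import Pool.Agent.XPS.DEN
import Pool.Agent.XPS.HV2
import Pool.Agent.XPS.HUB
import Pool.Agent.XPS.WLK
import Pool.Agent.XPS.PRU
import Pool.Agent.XPS.MOM
import Pool.Agent.XPS.KIA
import Pool.Agent.XPS.KIB
import Pool.Agent.XPS.KIK
import Pool.Agent.XPS.SUM
import Pool.Agent.XPS.EXK
import Pool.Agent.XPS.LOS
import Pool.Agent.XPS.KAB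
import Pool.Agent.XPS.LFA
import Pool.Agent.XPS.DRV
import Pool.Agent.XPS.RB1
import Pool.Agent.XPS.RB2
import Pool.Agent.XPS.RGB
import Pool.Agent.XPS.REG
import Pool.Agent.XPS.TWO
import Pool.Agent.XPS.LIA
import Pool.Agent.XPS.LIB
import Pool.Agent.XPS.LIT
import Pool.Agent.XPS.LCT
import Pool.Agent.XPS.EXN
import Pool.Agent.XPS.EXC
import Pool.Agent.XPS.POP
import Pool.Agent.XPS.EVA
import Pool.Agent.XPS.NOS
import Pool.Agent.XPS.STP
import Pool.Agent.XPS.ITE
import Pool.Agent.XPS.ALG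
import Pool.Agent.XPS.KIL
import Pool.Agent.XPS.FNL
import Pool.Agent.XPS.TREE

set_option autoImplicit false

/-!
# MP_9f5962_lc: a power saving over the square root for the XOR functions

For every Boolean function `f` on `F_2^n`, with `r` the real rank of the matrix of `f (x + y)`,
there are a parity decision tree for `f` of depth at most `C * r ^ (1/2 - 1/26000)` and a
deterministic two-party protocol for `f (x + y)` of at most twice this cost.
-/

open scoped Classical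

namespace Pool.Agent.Results.MP_9f5962_lc.PowerSaving

open Pool.Agent.XPS

theorem nos : T_NOS := by
  have hCHR := p_CHR
  have hBAS := p_BAS hCHR
  have hQUO := p_QUO
  have hBER := p_BER
  have hCON := p_CON hBER
  have hXTR := p_XTR p_LAG hBER p_SUP
  have hBLP := p_BLP hXTR hBER
  have hLBL := p_LBL hCHR hBAS hQUO p_EXT hBLP
  have hKHI := p_KHI hCHR
  have hLH := p_LH hCHR hBER hXTR hKHI
  have hRICH := p_RICH hCHR hBAS hQUO hBLP hLH
  have hMER := p_MER
  have hSAM := p_SAM hBER hMER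
  have hBLK := p_BLK
  have hCB1 := p_CB1 hBLK p_GRD
  have hCB2 := p_CB2 hBER hCON hBLK
  have hHV2 := p_HV2 hBER hCON
  have hHUB := p_HUB hSAM
  have hPRU := p_PRU p_WLK
  have hKIB := p_KIB p_MOM
  have hKIK := p_KIK hPRU p_KIA hKIB
  have hEXK := p_EXK hBER p_SUM
  have hLOS := p_LOS hBER
  have hKAB := p_KAB hBER hKIK hEXK hLOS
  have hDRV := p_DRV hBAS hMER p_GMB hLBL hRICH
  have hRB1 := p_RB1 hCB1 hDRV p_ENG
  have hRB2 := p_RB2 hCB2 hDRV p_ENG
  have hRGB := p_RGB hRB1 hRB2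
  have hREG := p_REG p_RGA p_DYA hRGB hDRV
  have hTWO := p_TWO hHV2 p_DEN hDRV
  have hLIA := p_LIA hDRV p_LFA p_DYA hMER
  have hLIB := p_LIB hKAB
  have hLIT := p_LIT hLIA hLIB p_LFA hDRV hMER
  have hEXC := p_EXC p_EXN hDRV
  have hPOP := p_POP hDRV hBAS hMER
  have hEVA := p_EVA hDRV hBAS hMER hPOP
  exact p_NOS hDRV hBAS hHUB hREG hLIT p_LCT hTWO hEXC hEVA p_IDN

theorem kil : T_KIL := by
  have hCHR := p_CHR
  have hBAS := p_BAS hCHR
  exact p_KIL (p_ALG nos (p_ITE p_QUO (p_STP hCHR) hBAS) hBAS p_QUO)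

/-- For every `f : F_2^n → {0, 1}` there is a number `d ≤ C * r ^ (1/2 - 1/26000)`, `r` the real
rank of the matrix of `f (x + y)`, such that `f` has a parity decision tree of depth at most `d`
and `f (x + y)` has a deterministic two-party protocol of cost `2 * d`. -/
theorem result : ∃ C : ℝ, 0 < C ∧ ∀ (n : ℕ) (f : (Fin n → ZMod 2) → Bool), ∃ (d : ℕ) (t : PT n),
    (d : ℝ) ≤ C * ((Matrix.of (fun x y : Fin n → ZMod 2 =>
      if f (x + y) then (1 : ℝ) else 0)).rank : ℝ) ^ ((1 / 2 : ℝ) - 1 / 26000) ∧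
    t.depth ≤ d ∧ (∀ x, t.out x = f x) ∧
    ∃ owner : List Bool → Bool,
    ∃ A : List Bool → (Fin n → ZMod 2) → Bool,
    ∃ B : List Bool → (Fin n → ZMod 2) → Bool,
    ∃ out : List Bool → Bool,
      ∀ x y : Fin n → ZMod 2, ∀ w : List Bool, w.length = 2 * d →
        (∀ i : ℕ, i < 2 * d →
          w[i]? = some (if owner (w.take i) then A (w.take i) x else B (w.take i) y)) →
        out w = f (x + y) := by
  obtain ⟨C, hC, h⟩ := p_TREE kil
  refine ⟨C, hC, fun n f => ?_⟩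
  obtain ⟨d, t, h1, h2, h3, h4⟩ := h n f
  exact ⟨d, t, h1, h2, h3, h4⟩

end Pool.Agent.Results.MP_9f5962_lc.PowerSaving
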